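import Pool.Agent.H66.XP.TG
import Pool.Agent.H91.IQ.KST

/-!
Row KS2 of the board xpm (MP_0f8dca_lc): the strings which extend a partial assignment.
-/

set_option autoImplicit false

namespace Pool.Agent.H72.XP

open Finset Pool.Agent.H66.IQ
open Pool.Agent.H66.XP (T_KS2)
open Pool.Agent.H91.IQ (kstF kst_wm kst_mn)

/-- The game on the free variables. -/
theorem ks2_tr (hCLS : Pool.Agent.H66.XP.T_CLS) {V : Type} [Fintype V] [DecidableEq V] (κ : V → Option Bool)
    (t : Tr V) : ∃ t' : Tr {v // κ v = none}, t'.dp = t.dp ∧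
      (∀ S d, t.Cb S d → t'.Cb S d) ∧ ∀ z, t'.ev z = t.ev (kstF κ z) := by
  induction t with
  | lf a =>
    refine ⟨.lf ⟨fun z => a.f (kstF κ z), fun z => (a.Q (kstF κ z)).subtype _, ?_⟩, rfl, ?_, ?_⟩
    · intro y y' h
      have h1 := a.path (kstF κ y) (kstF κ y') (by
        intro v hv
        unfold kstF
        by_cases hk : κ v = none
        · rw [dif_pos hk, dif_pos hk]
          exact h ⟨v, hk⟩ (mem_subtype.2 hv)
        · rw [dif_neg hk, dif_neg hk])
      refine ⟨h1.1, ?_⟩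
      show (a.Q (kstF κ y')).subtype _ = (a.Q (kstF κ y)).subtype _
      rw [h1.2]
    · intro S d h
      exact hCLS V κ S d a.f h
    · intro z
      rfl
  | av l r ihl ihr =>
    obtain ⟨l', h1, h2, h3⟩ := ihl
    obtain ⟨r', g1, g2, g3⟩ := ihr
    refine ⟨.av l' r', ?_, ?_, ?_⟩
    · show max l'.dp r'.dp + 1 = max l.dp r.dp + 1
      rw [h1, g1]
    · intro S d h
      exact ⟨h2 S d h.1, g2 S d h.2⟩
    · intro z
      show (l'.ev z + r'.ev z) / 2 = (l.ev _ + r.ev _) / 2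
      rw [h3, g3]
  | ch l r ihl ihr =>
    obtain ⟨l', h1, h2, h3⟩ := ihl
    obtain ⟨r', g1, g2, g3⟩ := ihr
    refine ⟨.ch l' r', ?_, ?_, ?_⟩
    · show max l'.dp r'.dp + 1 = max l.dp r.dp + 1
      rw [h1, g1]
    · intro S d h
      exact ⟨h2 S d h.1, g2 S d h.2⟩
    · intro z
      show max (l'.ev z) (r'.ev z) = max (l.ev _) (r.ev _)
      rw [h3, g3]

theorem pf_KS2 (hCLS : Pool.Agent.H66.XP.T_CLS) : T_KS2 := by
  intro V _ _ κ W t hW
  obtain ⟨t', h1, h2, h3⟩ := ks2_tr hCLS κ t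
  exact ⟨t', h1.le, h2, kst_wm κ W hW _ _ h3, kst_mn κ _ _ h3⟩

end Pool.Agent.H72.XP
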